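import Mathlib
import Pool.Agent.TH297.FS.C
set_option autoImplicit false

namespace Pool.Agent.Results.MP_b01eab_al.LocalSimilarityGroups

open Pool.Agent.TH297.FS

/-- The balls of a metric space: closed balls of positive radius.  (In a compact ultrametric space
these are the same sets as the open balls of positive radius.) -/
def IsBall {X : Type} [MetricSpace X] (B : Set X) : Prop :=
  ∃ (x : X) (r : ℝ), 0 < r ∧ B = Metric.closedBall x r

/-- A finite similarity structure on `X` (Hughes): to every ordered pair of balls a finite set of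
surjective similarities between them is assigned, containing identities and closed under inverses,
compositions and restrictions to balls. -/
structure SimStructure (X : Type) [MetricSpace X] where
  Sim : (B₁ B₂ : Set X) → Set (B₁ ≃ B₂)
  similarity : ∀ B₁ B₂, IsBall B₁ → IsBall B₂ → ∀ h ∈ Sim B₁ B₂,
    ∃ c : ℝ, 0 < c ∧ ∀ x y : B₁, dist (h x) (h y) = c * dist x y
  finite : ∀ B₁ B₂, IsBall B₁ → IsBall B₂ → (Sim B₁ B₂).Finite
  identities : ∀ B, IsBall B → Equiv.refl B ∈ Sim B B
  inverses : ∀ B₁ B₂, IsBall B₁ → IsBall B₂ → ∀ h ∈ Sim B₁ B₂, h.symm ∈ Sim B₂ B₁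
  compositions : ∀ B₁ B₂ B₃, IsBall B₁ → IsBall B₂ → IsBall B₃ →
    ∀ h ∈ Sim B₁ B₂, ∀ h' ∈ Sim B₂ B₃, h.trans h' ∈ Sim B₁ B₃
  restrictions : ∀ B₁ B₂, IsBall B₁ → IsBall B₂ → ∀ h ∈ Sim B₁ B₂,
    ∀ (B₃ : Set X) (hs : B₃ ⊆ B₁), IsBall B₃ →
      ∃ B₄, IsBall B₄ ∧ ∃ h' ∈ Sim B₃ B₄, ∀ x : B₃, ((h' x : B₄) : X) = (h ⟨x, hs x.2⟩ : B₂)

/-- A homeomorphism is locally determined by the similarity structure if every point has a
neighbourhood ball on which it restricts to a member of the structure. -/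
def LocallyDetermined {X : Type} [MetricSpace X] (𝒮 : SimStructure X) (g : X ≃ₜ X) : Prop :=
  ∀ x : X, ∃ B₁ B₂ : Set X, x ∈ B₁ ∧ IsBall B₁ ∧ IsBall B₂ ∧
    ∃ h ∈ 𝒮.Sim B₁ B₂, ∀ y : B₁, ((h y : B₂) : X) = g y

section
variable {X : Type} [MetricSpace X] [CompactSpace X] [IsUltrametricDist X]

omit [CompactSpace X] in
theorem ball_laminar (B B' : Set X) (hB : IsBall B) (hB' : IsBall B') (h : (B ∩ B').Nonempty) :
    B ⊆ B' ∨ B' ⊆ B := by
  obtain ⟨x, r, hr, rfl⟩ := hB
  obtain ⟨y, s, hs, rfl⟩ := hB'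
  rcases IsUltrametricDist.closedBall_subset_trichotomy x y r s with h1 | h1 | h1
  · exact Or.inl h1
  · exact Or.inr h1
  · exact absurd h (Set.not_nonempty_iff_eq_empty.mpr h1.inter_eq)

omit [CompactSpace X] in
theorem ball_nhds {B : Set X} (hB : IsBall B) {x : X} (hx : x ∈ B) : B ∈ nhds x := by
  obtain ⟨y, r, hr, rfl⟩ := hB
  exact (IsUltrametricDist.isOpen_closedBall y hr.ne').mem_nhds hx

theorem ball_fin_above (B : Set X) (hB : IsBall B) : {B' | IsBall B' ∧ B ⊆ B'}.Finite := by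
  classical
  obtain ⟨x, r, hr, rfl⟩ := hB
  obtain ⟨t, _, ht⟩ := (isCompact_univ (X := X)).elim_nhds_subcover
    (fun y => Metric.closedBall y r) (fun y _ => Metric.closedBall_mem_nhds y hr)
  have hsub : {B' | IsBall B' ∧ Metric.closedBall x r ⊆ B'} ⊆
      (fun s : Finset X => ⋃ c ∈ s, Metric.closedBall c r) '' (t.powerset : Set (Finset X)) := by
    rintro B' ⟨hB', hle⟩
    refine ⟨t.filter (fun c => Metric.closedBall c r ⊆ B'), ?_, ?_⟩
    · rw [Finset.mem_coe, Finset.mem_powerset]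
      exact Finset.filter_subset _ _
    · apply Set.Subset.antisymm
      · intro z hz
        obtain ⟨c, hc, hz⟩ := Set.mem_iUnion₂.mp hz
        exact (Finset.mem_filter.mp hc).2 hz
      · intro z hz
        obtain ⟨c, hc, hzc⟩ := Set.mem_iUnion₂.mp (ht (Set.mem_univ z))
        refine Set.mem_iUnion₂.mpr ⟨c, Finset.mem_filter.mpr ⟨hc, ?_⟩, hzc⟩
        rcases ball_laminar (Metric.closedBall c r) B' ⟨c, r, hr, rfl⟩ hB' ⟨z, hzc, hz⟩ with h | h
        · exact h
        · have hx : x ∈ Metric.closedBall c r := h (hle (Metric.mem_closedBall_self hr.le))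
          rw [IsUltrametricDist.closedBall_eq_of_mem hx]
          exact hle
  exact ((t.powerset.finite_toSet).image _).subset hsub

/-- The abstract system of a similarity structure. -/
def sys (𝒮 : SimStructure X) : Sys X where
  Ball := IsBall
  nonempty := by
    rintro B ⟨x, r, hr, rfl⟩
    exact ⟨x, Metric.mem_closedBall_self hr.le⟩
  laminar := ball_laminar
  fin_above := ball_fin_above
  LS g B := IsBall B ∧ ∃ B₂ : Set X, IsBall B₂ ∧ B₂ = g '' B ∧
    ∃ h ∈ 𝒮.Sim B B₂, ∀ y : B, ((h y : B₂) : X) = g y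
  ls_ball := by
    rintro g B ⟨_, B₂, h2, h3, _⟩
    rw [← h3]; exact h2
  one := by
    intro B hB
    exact ⟨hB, B, hB, by simp, Equiv.refl B, 𝒮.identities B hB, fun y => rfl⟩
  inv := by
    rintro g B ⟨hB, B₂, hB₂, rfl, h, hh, hy⟩
    refine ⟨hB₂, B, hB, ?_, h.symm, 𝒮.inverses _ _ hB hB₂ h hh, ?_⟩
    · rw [Set.image_image]; simp
    · intro z
      have h1 := hy (h.symm z)
      rw [Equiv.apply_symm_apply] at h1
      rw [h1]
      simp
  mul := by
    rintro g g' B ⟨hB, B₂, hB₂, rfl, h, hh, hy⟩ ⟨_, B₃, hB₃, rfl, h', hh', hy'⟩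
    refine ⟨hB, _, hB₃, ?_, h.trans h', 𝒮.compositions _ _ _ hB hB₂ hB₃ h hh h' hh', ?_⟩
    · rw [Set.image_image]; rfl
    · intro y
      rw [Equiv.trans_apply, hy', hy]
      rfl
  res := by
    rintro g B B' ⟨hB, B₂, hB₂, rfl, h, hh, hy⟩ hB' hs
    obtain ⟨B₄, hB₄, h', hh', hy'⟩ := 𝒮.restrictions _ _ hB hB₂ h hh B' hs hB'
    have h1 : ∀ y : B', ((h' y : B₄) : X) = g y := fun y => (hy' y).trans (hy ⟨y, hs y.2⟩)
    refine ⟨hB', B₄, hB₄, ?_, h', hh', h1⟩
    ext z
    constructor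
    · intro hz
      refine ⟨h'.symm ⟨z, hz⟩, (h'.symm ⟨z, hz⟩).2, ?_⟩
      rw [← h1, Equiv.apply_symm_apply]
    · rintro ⟨y, hy, rfl⟩
      have := h1 ⟨y, hy⟩
      simp only at this
      rw [← this]
      exact (h' ⟨y, hy⟩).2
  fin := by
    intro B B'
    by_cases hb : IsBall B ∧ IsBall B'
    · refine ((𝒮.finite B B' hb.1 hb.2).image (fun h => fun y : B => ((h y : B') : X))).subset ?_
      rintro r ⟨g, ⟨_, B₂, _, h3, h, hh, hy⟩, h4, rfl⟩
      have h5 : B₂ = B' := h3.trans h4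
      subst h5
      exact ⟨h, hh, funext hy⟩
    · have : {r : B → X | ∃ g : Equiv.Perm X, (IsBall B ∧ ∃ B₂ : Set X, IsBall B₂ ∧
          B₂ = g '' B ∧ ∃ h ∈ 𝒮.Sim B B₂, ∀ y : B, ((h y : B₂) : X) = g y) ∧ g '' B = B' ∧
          r = fun y : B => g (y : X)} = ∅ := by
        ext r
        simp only [Set.mem_ofPred_eq, Set.mem_empty_iff_false, iff_false]
        rintro ⟨g, ⟨h1, B₂, h2, h3, _⟩, h4, _⟩
        exact hb ⟨h1, by rw [← h4, ← h3]; exact h2⟩
      rw [this]
      exact Set.finite_empty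

theorem ls_of_locallyDetermined {𝒮 : SimStructure X} {g : X ≃ₜ X} (h : LocallyDetermined 𝒮 g)
    (x : X) : ∃ B, x ∈ B ∧ IsBall B ∧ (sys 𝒮).LS g.toEquiv B := by
  obtain ⟨B₁, B₂, hx, h1, h2, h', hh', hy⟩ := h x
  refine ⟨B₁, hx, h1, h1, B₂, h2, ?_, h', hh', hy⟩
  ext z
  constructor
  · intro hz
    refine ⟨h'.symm ⟨z, hz⟩, (h'.symm ⟨z, hz⟩).2, ?_⟩
    have := hy (h'.symm ⟨z, hz⟩)
    rw [Equiv.apply_symm_apply] at this
    exact this.symm
  · rintro ⟨y, hy1, rfl⟩
    have := hy ⟨y, hy1⟩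
    simp only at this
    show g y ∈ B₂
    rw [← this]
    exact (h' ⟨y, hy1⟩).2

/-- Pieces: a finite cover by balls on which finitely many given elements are similarities. -/
theorem exists_pieces {𝒮 : SimStructure X} {k : ℕ} (a : Fin k → (X ≃ₜ X))
    (h : ∀ i, LocallyDetermined 𝒮 (a i)) :
    ∃ P : Set (Set X), P.Finite ∧ (∀ p ∈ P, IsBall p) ∧ (∀ x, ∃ p ∈ P, x ∈ p) ∧
      ∀ i, ∀ p ∈ P, (sys 𝒮).LS (a i).toEquiv p := by
  classical
  have h1 : ∀ (x : X) (s : Finset (Fin k)), ∃ B, x ∈ B ∧ IsBall B ∧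
      ∀ i ∈ s, (sys 𝒮).LS (a i).toEquiv B := by
    intro x s
    induction s using Finset.induction_on with
    | empty => exact ⟨Metric.closedBall x 1, Metric.mem_closedBall_self zero_le_one,
        ⟨x, 1, one_pos, rfl⟩, by simp⟩
    | insert i s _ ih =>
      obtain ⟨B, h1, h2, h3⟩ := ih
      obtain ⟨B', h1', h2', h3'⟩ := ls_of_locallyDetermined (h i) x
      rcases ball_laminar B B' h2 h2' ⟨x, h1, h1'⟩ with hs | hs
      · refine ⟨B, h1, h2, fun j hj => ?_⟩
        rcases Finset.mem_insert.mp hj with rfl | hj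
        · exact (sys 𝒮).res _ _ _ h3' h2 hs
        · exact h3 j hj
      · refine ⟨B', h1', h2', fun j hj => ?_⟩
        rcases Finset.mem_insert.mp hj with rfl | hj
        · exact h3'
        · exact (sys 𝒮).res _ _ _ (h3 j hj) h2' hs
  choose B hxB hB hLS using fun x => h1 x Finset.univ
  obtain ⟨t, _, ht⟩ := (isCompact_univ (X := X)).elim_nhds_subcover B
    (fun y _ => ball_nhds (hB y) (hxB y))
  refine ⟨B '' (t : Set X), t.finite_toSet.image _, ?_, ?_, ?_⟩
  · rintro p ⟨x, _, rfl⟩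
    exact hB x
  · intro x
    obtain ⟨c, hc, hxc⟩ := Set.mem_iUnion₂.mp (ht (Set.mem_univ x))
    exact ⟨B c, ⟨c, hc, rfl⟩, hxc⟩
  · rintro i p ⟨x, _, rfl⟩
    exact hLS x i (Finset.mem_univ i)

end

/-- The permutation underlying a homeomorphism, as a homomorphism. -/
def toPerm (X : Type) [MetricSpace X] : (X ≃ₜ X) →* Equiv.Perm X where
  toFun g := g.toEquiv
  map_one' := rfl
  map_mul' _ _ := rfl

theorem arith (M κ q n D : ℕ)
    (hD : D ≤ (M * (1 + κ * (κ + 2) ^ (n * q)) + 1) ^ (n * q)) :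
    D ≤ ((M * (1 + κ) + 1) * (κ + 2)) ^ (q * q * n ^ 2) := by
  refine hD.trans ?_
  rcases Nat.eq_zero_or_pos (n * q) with h0 | hpos
  · rw [h0, pow_zero]
    exact Nat.one_le_pow _ _ (by positivity)
  · have hb : 1 ≤ (κ + 2) ^ (n * q) := Nat.one_le_pow _ _ (by omega)
    have h1 : M * (1 + κ * (κ + 2) ^ (n * q)) + 1 ≤ (M * (1 + κ) + 1) * (κ + 2) ^ (n * q) := by
      have : M * 1 ≤ M * (κ + 2) ^ (n * q) := Nat.mul_le_mul_left M hb
      nlinarith
    have h2 : M * (1 + κ * (κ + 2) ^ (n * q)) + 1 ≤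
        ((M * (1 + κ) + 1) * (κ + 2)) ^ (n * q) := by
      refine h1.trans ?_
      rw [mul_pow]
      exact Nat.mul_le_mul_right _ (Nat.le_self_pow hpos.ne' _)
    calc (M * (1 + κ * (κ + 2) ^ (n * q)) + 1) ^ (n * q)
        ≤ (((M * (1 + κ) + 1) * (κ + 2)) ^ (n * q)) ^ (n * q) := Nat.pow_le_pow_left h2 _
      _ = ((M * (1 + κ) + 1) * (κ + 2)) ^ (q * q * n ^ 2) := by
        rw [← pow_mul]; congr 1; ring

/-- **Period growth of groups of local similarities.**  Let `X` be a compact ultrametric space with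
a finite similarity structure `𝒮` (in the sense of Hughes), and let `G` be a finitely generated
group of homeomorphisms of `X` that are locally determined by `𝒮`.  Then there is `C > 0` such that
every finite-order element given by a word of length at most `n` has order at most
`C * exp (C * n ^ 2)`. -/
theorem result :
    ∀ (X : Type) [MetricSpace X] [CompactSpace X] [IsUltrametricDist X] (𝒮 : SimStructure X)
      (G : Type) [Group G] (k : ℕ) (f : Fin k → G),
      Submonoid.closure (Set.range f) = ⊤ →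
      ∀ ρ : G →* (X ≃ₜ X), Function.Injective ρ → (∀ g : G, LocallyDetermined 𝒮 (ρ g)) →
      ∃ C : ℝ, 0 < C ∧ ∀ (n : ℕ) (w : List (Fin k)), w.length ≤ n →
        IsOfFinOrder (w.map f).prod →
        ((orderOf (w.map f).prod : ℕ) : ℝ) ≤ C * Real.exp (C * (n : ℝ) ^ 2) := by
  intro X _ _ _ 𝒮 G _ k f _ ρ hρ hloc
  classical
  obtain ⟨P, hPf, hPb, hPc, hPA⟩ := exists_pieces (fun i => ρ (f i)) (fun i => hloc (f i))
  let S := sys 𝒮
  have hK : (KK S P).Finite := by
    refine (hPf.biUnion fun p hp => S.fin_above p (hPb p hp)).subset ?_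
    rintro B ⟨h1, p, hp, h2⟩
    exact Set.mem_biUnion hp ⟨h1, h2⟩
  let π : G →* Equiv.Perm X := (toPerm X).comp ρ
  have hπ : Function.Injective π := by
    intro g g' h
    apply hρ
    ext x
    exact Equiv.congr_fun h x
  -- constants
  let κ : ℕ := (Finset.univ ×ˢ hK.toFinset : Finset (Fin k × Set X)).sup
    (fun a => {B' | IsBall B' ∧ π (f a.1) '' a.2 ⊆ B'}.ncard)
  let M : ℕ := hK.toFinset.sup (fun C => ({r : C → X | ∃ g : Equiv.Perm X, S.LS g C ∧
    g '' C ∈ KK S P ∧ r = fun y : C => g (y : X)}).ncard)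
  have hκ : ∀ i, ∀ K ∈ KK S P, S.LS (π (f i)) K → ∀ E, rk S (π (f i) '' K) E ≤ κ := by
    intro i K hKK hLS E
    have h1 : {B' | IsBall B' ∧ π (f i) '' K ⊆ B'}.ncard ≤ κ :=
      Finset.le_sup (f := fun a : Fin k × Set X => {B' | IsBall B' ∧ π (f a.1) '' a.2 ⊆ B'}.ncard)
        (b := (i, K)) (Finset.mem_product.mpr ⟨Finset.mem_univ _, hK.mem_toFinset.mpr hKK⟩)
    refine le_trans ?_ h1
    refine Set.ncard_le_ncard ?_ (S.fin_above _ (S.ls_ball _ _ hLS))
    rintro B' ⟨h2, h3, _⟩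
    exact ⟨h2, h3.1⟩
  have hM : ∀ C ∈ KK S P, ({r : C → X | ∃ g : Equiv.Perm X, S.LS g C ∧ g '' C ∈ KK S P ∧
      r = fun y : C => g (y : X)}).ncard ≤ M := fun C hC =>
    Finset.le_sup (f := fun C : Set X => ({r : C → X | ∃ g : Equiv.Perm X, S.LS g C ∧
      g '' C ∈ KK S P ∧ r = fun y : C => g (y : X)}).ncard) (hK.mem_toFinset.mpr hC)
  let q := (KK S P).ncard
  let b : ℕ := (M * (1 + κ) + 1) * (κ + 2)
  have hb : 1 ≤ b := by
    have : 0 < b := by positivity
    exact this
  let C : ℝ := 1 + Real.log b * (q * q : ℕ)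
  have hlog : 0 ≤ Real.log b := Real.log_nonneg (by exact_mod_cast hb)
  have hC1 : 1 ≤ C := by
    have : 0 ≤ Real.log b * (q * q : ℕ) := by positivity
    simp only [C]; linarith
  refine ⟨C, by linarith, ?_⟩
  intro n w hw hfin
  -- the key bound
  have key : orderOf (w.map f).prod ≤ b ^ (q * q * w.length ^ 2) := by
    rcases Nat.eq_zero_or_pos w.length with h0 | hn
    · have : w = [] := List.length_eq_zero_iff.mp h0
      subst this
      simp
    · set N := w.length with hN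
      have hNr : w.reverse.length = N := by rw [List.length_reverse]
      let A : ℕ → Equiv.Perm X := fun i =>
        π (f (w.reverse.get ⟨i % N, by rw [hNr]; exact Nat.mod_lt _ hn⟩))
      have hper : ∀ i, A (i + N) = A i := by
        intro i
        simp only [A, Nat.add_mod_right]
      have hA : ∀ i, ∀ p ∈ P, S.LS (A i) p := fun i p hp => hPA _ p hp
      have hκ' : ∀ i, ∀ K ∈ KK S P, S.LS (A i) K → ∀ E, rk S (A i '' K) E ≤ κ :=
        fun i => hκ _
      have hprod : ∀ j ≤ N, Pr A 0 j = π (((w.reverse.take j).reverse.map f).prod) := by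
        intro j
        induction j with
        | zero => intro _; simp [Pr]
        | succ j ih =>
          intro hj
          have hjr : j < w.reverse.length := by omega
          rw [Pr, ih (by omega), List.take_succ_eq_append_getElem hjr, List.reverse_append,
            List.reverse_singleton, List.singleton_append, List.map_cons, List.prod_cons, map_mul]
          congr 1
          simp only [A, Nat.zero_add]
          have : j % N = j := Nat.mod_eq_of_lt (by omega)
          simp only [this, List.get_eq_getElem]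
      have hPrN : Pr A 0 N = π (w.map f).prod := by
        rw [hprod N le_rfl, ← hNr, List.take_length, List.reverse_reverse]
      have hall : ∀ j, ∃ g, Pr A 0 j = π g := by
        intro j
        induction j with
        | zero => exact ⟨1, by simp [Pr]⟩
        | succ j ih =>
          obtain ⟨g, hg⟩ := ih
          exact ⟨_ * g, by rw [Pr, hg]; simp only [A]; rw [← map_mul]⟩
      have hloc' : ∀ j x, ∃ B, x ∈ B ∧ S.Ball B ∧ S.LS (Pr A 0 j) B := by
        intro j x
        obtain ⟨g, hg⟩ := hall j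
        obtain ⟨B, h1, h2, h3⟩ := ls_of_locallyDetermined (hloc g) x
        exact ⟨B, h1, h2, by rw [hg]; exact h3⟩
      have hm : 0 < orderOf (w.map f).prod := hfin.orderOf_pos
      have htor : Pr A 0 (N * orderOf (w.map f).prod) = 1 := by
        rw [Pr_pow hper, hPrN, ← map_pow, pow_orderOf_eq_one, map_one]
      obtain ⟨D, hD0, hD, hD1⟩ := abstract_bound (S := S) hPb hPc hper hn hK hA κ hκ' hm htor M hM
        hloc'
      rw [hPrN, ← map_pow] at hD1
      have h2 : (w.map f).prod ^ D = 1 := hπ (by rw [hD1, map_one])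
      exact (Nat.le_of_dvd hD0 (orderOf_dvd_of_pow_eq_one h2)).trans (arith M κ q N D hD)
  have hbpos : (0 : ℝ) < (b : ℝ) := by exact_mod_cast hb
  calc ((orderOf (w.map f).prod : ℕ) : ℝ) ≤ ((b ^ (q * q * w.length ^ 2) : ℕ) : ℝ) := by
        exact_mod_cast key
    _ ≤ ((b ^ (q * q * n ^ 2) : ℕ) : ℝ) := by
        have : b ^ (q * q * w.length ^ 2) ≤ b ^ (q * q * n ^ 2) :=
          Nat.pow_le_pow_right hb (Nat.mul_le_mul_left _ (Nat.pow_le_pow_left hw 2))
        exact_mod_cast this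
    _ = Real.exp (Real.log b * (q * q : ℕ) * (n : ℝ) ^ 2) := by
        rw [Nat.cast_pow, ← Real.exp_log (show (0 : ℝ) < (b : ℝ) ^ (q * q * n ^ 2) by positivity),
          Real.log_pow]
        congr 1
        push_cast
        ring
    _ ≤ Real.exp (C * (n : ℝ) ^ 2) := by
        apply Real.exp_le_exp.mpr
        apply mul_le_mul_of_nonneg_right _ (by positivity)
        simp only [C]; linarith
    _ ≤ C * Real.exp (C * (n : ℝ) ^ 2) := le_mul_of_one_le_left (Real.exp_pos _).le hC1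

end Pool.Agent.Results.MP_b01eab_al.LocalSimilarityGroups
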