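import Mathlib
import Pool.Agent.TH297.PG.D
set_option autoImplicit false

namespace Pool.Agent.Results.MP_b01eab_al.OrderStructure

open Pool.Agent.TH297.PG

/-- **Orders of torsion elements of co-context-free groups.**  For every group generated by finitely
many elements whose set of non-identity words is context-free, there is `A` such that the order of
every finite-order element given by a word of length `n` divides the least common multiple of at
most `A * n ^ 2` positive integers, each of them at most `2 ^ (A * n ^ 2)`.  (In particular every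
prime power dividing such an order is at most `2 ^ (A * n ^ 2)` if it is not one, and such an order
is at most `2 ^ (A ^ 2 * n ^ 4)`.) -/
theorem result :
    ∀ (G : Type) [Group G] (k : ℕ) (f : Fin k → G),
      Submonoid.closure (Set.range f) = ⊤ →
      Language.IsContextFree
        ({w : List (Fin k) | (w.map f).prod ≠ 1} : Language (Fin k)) →
      ∃ A : ℕ, ∀ w : List (Fin k), IsOfFinOrder (w.map f).prod →
        ∃ S : Finset ℕ, S.card ≤ A * w.length ^ 2 ∧
          (∀ c ∈ S, 0 < c ∧ c ≤ 2 ^ (A * w.length ^ 2)) ∧
          orderOf (w.map f).prod ∣ S.lcm id := by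
  intro G _ k f _ hcf
  classical
  obtain ⟨A, hA⟩ := group_loops f hcf
  refine ⟨2 * A, fun w hfin => ?_⟩
  rcases Nat.eq_zero_or_pos w.length with h0 | hpos
  · have hw0 : w = [] := List.length_eq_zero_iff.mp h0
    refine ⟨∅, by simp, by simp, ?_⟩
    rw [hw0]; simp
  obtain ⟨N, hN, c, hc1, hc2⟩ := hA w hpos
  refine ⟨Finset.univ.image c, ?_, ?_, ?_⟩
  · calc (Finset.univ.image c).card ≤ (Finset.univ : Finset (Fin N)).card := Finset.card_image_le
      _ = N := by rw [Finset.card_univ, Fintype.card_fin]
      _ ≤ A * w.length ^ 2 := hN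
      _ ≤ 2 * A * w.length ^ 2 := Nat.mul_le_mul_right _ (by omega)
  · intro x hx
    obtain ⟨l, _, rfl⟩ := Finset.mem_image.mp hx
    refine ⟨(hc1 l).1, ?_⟩
    have := (hc1 l).2
    rwa [← Nat.mul_assoc] at this
  · rw [Nat.dvd_iff_prime_pow_dvd_dvd]
    intro q a hq hd
    rcases Nat.eq_zero_or_pos a with rfl | ha
    · rw [pow_zero]; exact one_dvd _
    obtain ⟨l, hl⟩ := order_dvd _ hfin c hc2 q a hq ha hd
    exact hl.trans (Finset.dvd_lcm (f := id) (Finset.mem_image.mpr ⟨l, Finset.mem_univ _, rfl⟩))

end Pool.Agent.Results.MP_b01eab_al.OrderStructure
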